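import Pool.Agent.W_448kd_h63.DkB

/-!
# No deep killer (MP_448cb3_co, case B, Route T, block K, part P3)

A configuration of a part with `b` sites and at most `s` sinks (`b + pL + pU ≤ s + |AL| + |AU|`) and
energy at most `n`, `(b, s, n)` one of `(6, 2, 8)`, `(6, 1, 10)`, `(5, 2, 6)`, `(5, 1, 7)`, has no
killed element on the levels `i + 2` and `i - 2`.
-/

namespace Pool.Agent.GaussPoset.Win.Dk

set_option linter.unusedSectionVars false

open Finset I2 K2 H2

universe u

variable {P : Type u} [Fintype P] [PartialOrder P] [DecidableEq P] {r i : ℕ} {e : P → ℕ}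
  {C : Finset P}

/-- the data of a configuration at the window -/
lemma dat_low (H : Gr P r) (hir : i ≤ r) (hT : NoT P (i + 2)) (hg : ∀ m, m + 1 = i → Good P m)
    (hL : AdmL i e) (hU : AdmU i e) (hd : Disjoint (AL i e) (AU i e)) :
    Dat uc dc (fun x : P => lev x - i) (fun x : P => i - lev x) (lv P i) (lS P i) (uS P i) e where
  S := K2.side_low H hT.noQ
  S' := K2.side_up H hir hg
  hT := low_T hT
  hT' := up_T H hir hg
  adm := adm_low hL
  adm' := adm_up hU
  dis := by rw [KD_low, KD_up]; exact hd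
  d12 := by
    rw [disjoint_left]
    intro x hx hx'
    rw [mem_lS] at hx
    rw [mem_uS] at hx'
    omega
  dV := by
    rw [disjoint_left]
    intro x hx hx'
    rw [mem_lS] at hx
    rw [mem_lv] at hx'
    omega
  dV' := by
    rw [disjoint_left]
    intro x hx hx'
    rw [mem_uS] at hx
    rw [mem_lv] at hx'
    omega

/-- the list of the cases -/
def DkCase (b s n : ℕ) : Prop :=
  (b = 6 ∧ s ≤ 2 ∧ n ≤ 8) ∨ (b = 6 ∧ s ≤ 1 ∧ n ≤ 10) ∨ (b = 5 ∧ s ≤ 2 ∧ n ≤ 6) ∨
    (b = 5 ∧ s ≤ 1 ∧ n ≤ 7)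

/-- NO DEEP KILLER -/
theorem no_deep (H : Gr P r) (hir : i ≤ r) (hT : NoT P (i + 2))
    (hg : ∀ m, m + 1 = i → Good P m) (hC : Part i C) (hs : Spt C e)
    (hL : AdmL i e) (hU : AdmU i e) (hd : Disjoint (AL i e) (AU i e)) {s : ℕ}
    (hk : (st i C).card + pL i e + pU i e ≤ s + (AL i e).card + (AU i e).card)
    (hc : DkCase (st i C).card s (∑ x, e x)) :
    (∀ z : P, lev z = i + 2 → ¬ FD e z) ∧ (∀ z : P, lev z + 2 = i → ¬ FU e z) := by
  classical
  have A := dat_low H hir hT hg hL hU hd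
  have hsub : AL i e ∪ AU i e ⊆ st i C := union_subset (AL_sub hC hs) (AU_sub H hC hs)
  have hcard : (AL i e ∪ AU i e).card = (AL i e).card + (AU i e).card :=
    card_union_of_disjoint hd
  have hle := card_le_card hsub
  have hlab : (st i C).card ≤ (AL i e ∪ AU i e).card → ∀ x ∈ lv P i, 1 ≤ e x →
      x ∈ AL i e ∨ x ∈ AU i e := by
    intro h x hx h1
    have h2 : AL i e ∪ AU i e = st i C := eq_of_subset_of_card_le hsub h
    have h3 : x ∈ st i C := by
      rw [mem_st]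
      refine ⟨?_, mem_lv.1 hx⟩
      by_contra hn
      have := hs x hn
      omega
    rw [← h2, mem_union] at h3
    exact h3
  constructor
  · intro z hz hk'
    have h1 : (8 ≥ ∑ x, e x ∧ 4 ≤ (st i C).card - s) ∨ (∑ x, e x ≤ 6 ∧ 3 ≤ (st i C).card - s) ∨
        (∑ x, e x ≤ 7 ∧ 4 ≤ (st i C).card - s) ∨
        (∑ x, e x ≤ 10 ∧ 5 ≤ (st i C).card - s ∧
          (KD dc e (lv P i)).card + (KD uc e (lv P i)).card ≤ 6 ∧
          (6 ≤ (KD dc e (lv P i)).card + (KD uc e (lv P i)).card → ∀ x ∈ lv P i, 1 ≤ e x →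
            x ∈ KD dc e (lv P i) ∨ x ∈ KD uc e (lv P i))) := by
      rw [KD_low, KD_up]
      rcases hc with ⟨h1, h2, h3⟩ | ⟨h1, h2, h3⟩ | ⟨h1, h2, h3⟩ | ⟨h1, h2, h3⟩
      · left; omega
      · right; right; right
        refine ⟨h3, by omega, by omega, fun h => hlab (by omega)⟩
      · right; left; omega
      · right; right; left; omega
    refine A.no_deep (k := (st i C).card - s) (E := ∑ x, e x) le_rfl ?_ h1
      (z := z) (mem_lS.2 (by omega)) ?_ (kd_dc.2 hk')
    · rw [KD_low, KD_up, fr_low, fr_up]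
      omega
    · omega
  · intro z hz hk'
    have h1 : (8 ≥ ∑ x, e x ∧ 4 ≤ (st i C).card - s) ∨ (∑ x, e x ≤ 6 ∧ 3 ≤ (st i C).card - s) ∨
        (∑ x, e x ≤ 7 ∧ 4 ≤ (st i C).card - s) ∨
        (∑ x, e x ≤ 10 ∧ 5 ≤ (st i C).card - s ∧
          (KD uc e (lv P i)).card + (KD dc e (lv P i)).card ≤ 6 ∧
          (6 ≤ (KD uc e (lv P i)).card + (KD dc e (lv P i)).card → ∀ x ∈ lv P i, 1 ≤ e x →
            x ∈ KD uc e (lv P i) ∨ x ∈ KD dc e (lv P i))) := by
      rw [KD_low, KD_up]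
      rcases hc with ⟨h1, h2, h3⟩ | ⟨h1, h2, h3⟩ | ⟨h1, h2, h3⟩ | ⟨h1, h2, h3⟩
      · left; omega
      · right; right; right
        refine ⟨h3, by omega, by omega, fun h x hx h1 => (hlab (by omega) x hx h1).symm⟩
      · right; left; omega
      · right; right; left; omega
    refine A.symm.no_deep (k := (st i C).card - s) (E := ∑ x, e x) le_rfl ?_ h1
      (z := z) (mem_uS.2 (by omega)) ?_ (kd_uc.2 hk')
    · rw [KD_low, KD_up, fr_low, fr_up]
      omega
    · omega

end Pool.Agent.GaussPoset.Win.Dk
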