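import Pool.Agent.W_448h2_h63.HC

/-!
# No deep killer (MP_448cb3_co, case B, Route T, block K, part P3): abstract form

`c z` are the covers of `z` towards the window, `c' z` those away from it, on the side `Sd`; on the
other side `Sd'` the roles are exchanged.
-/

namespace Pool.Agent.GaussPoset.Win.Dk

set_option linter.unusedSectionVars false

open Finset I2 K2 H2

universe u

variable {P : Type u} [Fintype P] [DecidableEq P]

variable {c c' : P → Finset P} {e : P → ℕ} {t t' : P → ℕ} {V Sd Sd' : Finset P}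

/-! ### covering by sets with at most two elements -/

lemma cov_le {N D : Finset P} {F : P → Finset P} (hF : ∀ g ∈ N, (F g).card ≤ 2)
    (hD : D ⊆ N.biUnion F) : D.card ≤ 2 * N.card := by
  refine (card_le_card hD).trans (card_biUnion_le.trans ?_)
  refine (sum_le_sum hF).trans ?_
  rw [sum_const, smul_eq_mul, mul_comm]

lemma cov_two {N D : Finset P} {F : P → Finset P} (hF : ∀ g ∈ N, (F g).card ≤ 2)
    (hD : D ⊆ N.biUnion F) (h : 2 * N.card ≤ D.card) {g : P} (hg : g ∈ N) : (F g).card = 2 := by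
  by_contra hne
  have h1 : (F g).card ≤ 1 := by have := hF g hg; omega
  have h2 : D ⊆ (N.erase g).biUnion F ∪ F g := by
    intro x hx
    obtain ⟨a, ha, hxa⟩ := mem_biUnion.1 (hD hx)
    by_cases h3 : a = g
    · rw [h3] at hxa
      exact mem_union_right _ hxa
    · exact mem_union_left _ (mem_biUnion.2 ⟨a, mem_erase.2 ⟨h3, ha⟩, hxa⟩)
  have h4 := card_le_card h2
  have h5 := card_union_le ((N.erase g).biUnion F) (F g)
  have h6 := cov_le (N := N.erase g) (D := (N.erase g).biUnion F) (F := F)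
    (fun a ha => hF a (mem_of_mem_erase ha)) (Subset.refl _)
  have h7 := card_erase_add_one hg
  omega

lemma cov_disj {N D : Finset P} {F : P → Finset P} (hF : ∀ g ∈ N, (F g).card ≤ 2)
    (hD : D ⊆ N.biUnion F) (h : 2 * N.card ≤ D.card) {g g' x : P} (hg : g ∈ N) (hg' : g' ∈ N)
    (hne : g ≠ g') (hx : x ∈ F g) (hx' : x ∈ F g') : False := by
  have h2 : D ⊆ (N.erase g).biUnion F ∪ (F g).erase x := by
    intro y hy
    obtain ⟨a, ha, hxa⟩ := mem_biUnion.1 (hD hy)
    by_cases h3 : a = g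
    · rw [h3] at hxa
      by_cases h4 : y = x
      · rw [h4]
        exact mem_union_left _ (mem_biUnion.2 ⟨g', mem_erase.2 ⟨Ne.symm hne, hg'⟩, hx'⟩)
      · exact mem_union_right _ (mem_erase.2 ⟨h4, hxa⟩)
    · exact mem_union_left _ (mem_biUnion.2 ⟨a, mem_erase.2 ⟨h3, ha⟩, hxa⟩)
  have h4 := card_le_card h2
  have h5 := card_union_le ((N.erase g).biUnion F) ((F g).erase x)
  have h6 := cov_le (N := N.erase g) (D := (N.erase g).biUnion F) (F := F)
    (fun a ha => hF a (mem_of_mem_erase ha)) (Subset.refl _)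
  have h7 := card_erase_add_one hg
  have h8 := card_erase_add_one hx
  have h9 := hF g hg
  omega

/-! ### one side -/

/-- the excited elements next to the window -/
def nE (t : P → ℕ) (Sd : Finset P) (e : P → ℕ) : Finset P := Sd.filter (fun g => t g = 1 ∧ 1 ≤ e g)

/-- the elements at distance two with label at least two -/
def wE (t : P → ℕ) (Sd : Finset P) (e : P → ℕ) : Finset P := Sd.filter (fun g => t g = 2 ∧ 2 ≤ e g)

lemma mem_nE {g : P} : g ∈ nE t Sd e ↔ g ∈ Sd ∧ t g = 1 ∧ 1 ≤ e g := by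
  unfold nE
  rw [mem_filter]

lemma mem_wE {g : P} : g ∈ wE t Sd e ↔ g ∈ Sd ∧ t g = 2 ∧ 2 ≤ e g := by
  unfold wE
  rw [mem_filter]

lemma mem_fr {g : P} : g ∈ fr c c' e Sd ↔ g ∈ Sd ∧ ¬ kd c' e g ∧ ¬ gu c e g := by
  classical
  unfold fr
  rw [mem_filter]

lemma kn_le2 (S : SideQ c c' t V Sd) (g : P) : (kn c e g).card ≤ 2 :=
  (card_le_card (filter_subset _ _)).trans (S.c2 g)

/-- the killed sites are killed by excited elements next to the window -/
lemma KD_sub (S : SideQ c c' t V Sd) : KD c' e V ⊆ (nE t Sd e).biUnion (kn c e) := by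
  classical
  intro x hx
  unfold KD at hx
  rw [mem_filter] at hx
  obtain ⟨hxV, g, hg, hlt⟩ := hx
  rw [mem_biUnion]
  have hgS := S.cout x (Or.inr hxV) g hg
  have hgx : x ∈ c g := (S.dual g x).2 hg
  have h1 := (S.cin g hgS x hgx).2
  have h2 := S.tV x hxV
  exact ⟨g, mem_nE.2 ⟨hgS, by omega, by omega⟩, mem_kn.2 ⟨hgx, hlt⟩⟩

/-- an excited element next to the window is free, killed by an element with label two, or has a
labelled site -/
lemma near_cases (S : SideQ c c' t V Sd) {g : P} (hg : g ∈ nE t Sd e) :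
    g ∈ fr c c' e Sd ∨ (∃ w ∈ wE t Sd e, g ∈ c w ∧ e g < e w) ∨
      (∃ x ∈ V, x ∈ c g ∧ e g ≤ e x) := by
  classical
  obtain ⟨h1, h2, h3⟩ := mem_nE.1 hg
  by_cases h4 : kd c' e g
  · right; left
    obtain ⟨w, hw, hlt⟩ := h4
    have hwS := S.cout g (Or.inl h1) w hw
    have hwg : g ∈ c w := (S.dual w g).2 hw
    have h5 := (S.cin w hwS g hwg).2
    exact ⟨w, mem_wE.2 ⟨hwS, by omega, by omega⟩, hwg, hlt⟩
  · by_cases h5 : gu c e g
    · right; right
      obtain ⟨x, hx, hle⟩ := h5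
      obtain ⟨h6, h7⟩ := S.cin g h1 x hx
      have h8 : x ∈ V := by
        rcases h6 with h6 | h6
        · have := S.tS x h6
          omega
        · exact h6
      exact ⟨x, h8, hx, hle⟩
    · exact Or.inl (mem_fr.2 ⟨h1, h4, h5⟩)

/-- the data of a killed element at distance two -/
lemma deep_data (S : SideQ c c' t V Sd) (adm : ∀ z ∈ Sd, ¬ (kd c' e z ∧ gu c e z)) {z : P}
    (hz : z ∈ Sd) (tz : t z = 2) (hk : kd c' e z) :
    2 ≤ e z ∧ ∃ d, d ∈ Sd ∧ t d = 3 ∧ 3 ≤ e d ∧ e z < e d := by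
  obtain ⟨d, hd, hlt⟩ := hk
  have hdS := S.cout z (Or.inl hz) d hd
  have hdz : z ∈ c d := (S.dual d z).2 hd
  have h1 := (S.cin d hdS z hdz).2
  obtain ⟨y, hy⟩ := S.ne z hz
  have h2 := not_gu_of_kd adm hz ⟨d, hd, hlt⟩ y hy
  obtain ⟨h3, h4⟩ := S.cin z hz y hy
  have hyS : y ∈ Sd := by
    rcases h3 with h3 | h3
    · exact h3
    · have := S.tV y h3
      omega
  obtain ⟨x, hx⟩ := S.ne y hyS
  have h5 := not_gu_of_kd adm hyS ⟨z, (S.dual z y).1 hy, h2⟩ x hx
  exact ⟨by omega, d, hdS, by omega, by omega, hlt⟩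

/-- there is a free element away from the window -/
lemma far_free (S : SideQ c c' t V Sd) (adm : ∀ z ∈ Sd, ¬ (kd c' e z ∧ gu c e z))
    (hE : ∑ x ∈ Sd, e x ≤ 10) {z : P} (hz : z ∈ Sd) (tz : t z = 2) (hk : kd c' e z) :
    ∃ f ∈ fr c c' e Sd, 2 ≤ t f := by
  classical
  obtain ⟨ez, d, hd, td, ed, hzd⟩ := deep_data S adm hz tz hk
  obtain ⟨f1, hf1, hmax⟩ := exists_max_image (Sd.filter (fun x => 2 ≤ t x)) e
    ⟨d, mem_filter.2 ⟨hd, by omega⟩⟩
  obtain ⟨f, hf, hmin⟩ := exists_min_image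
    ((Sd.filter (fun x => 2 ≤ t x)).filter (fun x => e x = e f1)) t
    ⟨f1, mem_filter.2 ⟨hf1, rfl⟩⟩
  rw [mem_filter, mem_filter] at hf
  obtain ⟨⟨hfS, tf⟩, ef⟩ := hf
  have hdm := hmax d (mem_filter.2 ⟨hd, by omega⟩)
  refine ⟨f, mem_fr.2 ⟨hfS, ?_, ?_⟩, tf⟩
  · rintro ⟨w, hw, hlt⟩
    have hwS := S.cout f (Or.inl hfS) w hw
    have h1 := (S.cin w hwS f ((S.dual w f).2 hw)).2
    have h2 := hmax w (mem_filter.2 ⟨hwS, by omega⟩)
    omega
  · rintro ⟨a, ha, hle⟩
    obtain ⟨h1, h2⟩ := S.cin f hfS a ha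
    have haS : a ∈ Sd := by
      rcases h1 with h1 | h1
      · exact h1
      · have := S.tV a h1
        omega
    rcases Nat.lt_or_ge (t a) 2 with h3 | h3
    · -- a is next to the window
      have n1 : d ≠ f := by rintro rfl; omega
      have n2 : d ≠ z := by rintro rfl; omega
      have n3 : d ≠ a := by rintro rfl; omega
      have n4 : f ≠ z := by rintro rfl; omega
      have n5 : f ≠ a := by rintro rfl; omega
      have n6 : z ≠ a := by rintro rfl; omega
      have h4 : ∑ x ∈ ({d, f, z, a} : Finset P), e x ≤ ∑ x ∈ Sd, e x := by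
        refine sum_le_sum_of_subset ?_
        intro x hx
        simp only [mem_insert, mem_singleton] at hx
        rcases hx with rfl | rfl | rfl | rfl
        · exact hd
        · exact hfS
        · exact hz
        · exact haS
      rw [sum_insert (by simp [n1, n2, n3]), sum_insert (by simp [n4, n5]),
        sum_insert (by simp [n6]), sum_singleton] at h4
      omega
    · have h4 := hmax a (mem_filter.2 ⟨haS, h3⟩)
      have h5 := hmin a (mem_filter.2 ⟨mem_filter.2 ⟨haS, h3⟩, by omega⟩)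
      omega

end Pool.Agent.GaussPoset.Win.Dk
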