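import Pool.Agent.W_448kd_h63.DkA

/-!
# No deep killer (MP_448cb3_co, case B, Route T, block K, part P3): both sides
-/

namespace Pool.Agent.GaussPoset.Win.Dk

set_option linter.unusedSectionVars false

open Finset I2 K2 H2

universe u

variable {P : Type u} [Fintype P] [DecidableEq P]

/-- a configuration at a window: both sides -/
structure Dat (c c' : P → Finset P) (t t' : P → ℕ) (V Sd Sd' : Finset P) (e : P → ℕ) : Prop where
  S : SideQ c c' t V Sd
  S' : SideQ c' c t' V Sd'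
  hT : SdT c t Sd
  hT' : SdT c' t' Sd'
  adm : ∀ z ∈ Sd, ¬ (kd c' e z ∧ gu c e z)
  adm' : ∀ z ∈ Sd', ¬ (kd c e z ∧ gu c' e z)
  dis : Disjoint (KD c' e V) (KD c e V)
  d12 : Disjoint Sd Sd'
  dV : Disjoint Sd V
  dV' : Disjoint Sd' V

variable {c c' : P → Finset P} {e : P → ℕ} {t t' : P → ℕ} {V Sd Sd' : Finset P}

lemma Dat.symm (A : Dat c c' t t' V Sd Sd' e) : Dat c' c t' t V Sd' Sd e :=
  ⟨A.S', A.S, A.hT', A.hT, A.adm', A.adm, A.dis.symm, A.d12.symm, A.dV', A.dV⟩

/-- two elements of one side under one element of label two have a common killed site -/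
lemma share (S : SideQ c c' t V Sd) (hT : SdT c t Sd) {w g g' : P} (hw : w ∈ wE t Sd e)
    (hg : g ∈ c w) (hg' : g' ∈ c w) (hne : g ≠ g') (h : (kn c e g).card = 2)
    (h' : (kn c e g').card = 2) : ∃ x, x ∈ kn c e g ∧ x ∈ kn c e g' := by
  obtain ⟨h1, h2, h3⟩ := mem_wE.1 hw
  have e1 : kn c e g = c g := by
    refine eq_of_subset_of_card_le (filter_subset _ _) ?_
    rw [h]
    exact S.c2 g
  have e2 : kn c e g' = c g' := by
    refine eq_of_subset_of_card_le (filter_subset _ _) ?_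
    rw [h']
    exact S.c2 g'
  rw [e1] at h ⊢
  rw [e2]
  exact hT w h1 h2 g hg g' hg' hne h

section main

variable (A : Dat c c' t t' V Sd Sd' e)
include A

/-- the killed sites of an element next to the window -/
lemma Dat.cov (F : P → Finset P) (h1 : ∀ g ∈ Sd, F g = kn c e g) (h2 : ∀ g ∈ Sd', F g = kn c' e g) :
    KD c' e V ∪ KD c e V ⊆ (nE t Sd e ∪ nE t' Sd' e).biUnion F := by
  intro x hx
  rw [mem_union] at hx
  rcases hx with hx | hx
  · obtain ⟨g, hg, hxg⟩ := mem_biUnion.1 (KD_sub A.S hx)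
    exact mem_biUnion.2 ⟨g, mem_union_left _ hg, by rw [h1 g (mem_nE.1 hg).1]; exact hxg⟩
  · obtain ⟨g, hg, hxg⟩ := mem_biUnion.1 (KD_sub A.S' hx)
    exact mem_biUnion.2 ⟨g, mem_union_right _ hg, by rw [h2 g (mem_nE.1 hg).1]; exact hxg⟩

/-- the energy -/
lemma Dat.energy {z : P} (hz : z ∈ Sd) (tz : t z = 2) (hk : kd c' e z) :
    ∑ g ∈ nE t Sd e ∪ nE t' Sd' e, e g + 2 * (wE t Sd e ∪ wE t' Sd' e).card + 3 +
      ∑ x ∈ V, e x ≤ ∑ x, e x := by
  classical
  obtain ⟨ez, d, hd, td, ed, -⟩ := deep_data A.S A.adm hz tz hk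
  have m12 : ∀ x, x ∈ Sd → x ∈ Sd' → False := fun x h h' => disjoint_left.1 A.d12 h h'
  have mV : ∀ x, x ∈ Sd → x ∈ V → False := fun x h h' => disjoint_left.1 A.dV h h'
  have mV' : ∀ x, x ∈ Sd' → x ∈ V → False := fun x h h' => disjoint_left.1 A.dV' h h'
  have d1 : Disjoint (nE t Sd e ∪ nE t' Sd' e) (wE t Sd e ∪ wE t' Sd' e) := by
    rw [disjoint_left]
    intro x hx hx'
    rw [mem_union, mem_nE, mem_nE] at hx
    rw [mem_union, mem_wE, mem_wE] at hx'
    rcases hx with hx | hx <;> rcases hx' with hx' | hx'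
    · omega
    · exact m12 x hx.1 hx'.1
    · exact m12 x hx'.1 hx.1
    · omega
  have d2 : Disjoint ((nE t Sd e ∪ nE t' Sd' e) ∪ (wE t Sd e ∪ wE t' Sd' e)) {d} := by
    rw [disjoint_singleton_right, mem_union, mem_union, mem_union, mem_nE, mem_nE, mem_wE, mem_wE]
    rintro ((h | h) | (h | h))
    · omega
    · exact m12 d hd h.1
    · omega
    · exact m12 d hd h.1
  have d3 : Disjoint (((nE t Sd e ∪ nE t' Sd' e) ∪ (wE t Sd e ∪ wE t' Sd' e)) ∪ {d}) V := by
    rw [disjoint_left]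
    intro x hx hxV
    rw [mem_union, mem_union, mem_union, mem_union, mem_nE, mem_nE, mem_wE, mem_wE,
      mem_singleton] at hx
    rcases hx with ((h | h) | (h | h)) | h
    · exact mV x h.1 hxV
    · exact mV' x h.1 hxV
    · exact mV x h.1 hxV
    · exact mV' x h.1 hxV
    · rw [h] at hxV
      exact mV d hd hxV
  have h1 : 2 * (wE t Sd e ∪ wE t' Sd' e).card ≤ ∑ g ∈ wE t Sd e ∪ wE t' Sd' e, e g := by
    rw [mul_comm, ← smul_eq_mul, ← sum_const]
    refine sum_le_sum fun g hg => ?_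
    rw [mem_union, mem_wE, mem_wE] at hg
    rcases hg with hg | hg
    · exact hg.2.2
    · exact hg.2.2
  have h2 : ∑ x ∈ (((nE t Sd e ∪ nE t' Sd' e) ∪ (wE t Sd e ∪ wE t' Sd' e)) ∪ {d}) ∪ V, e x ≤
      ∑ x, e x := sum_le_sum_of_subset (subset_univ _)
  rw [sum_union d3, sum_union d2, sum_union d1, sum_singleton] at h2
  omega

lemma Dat.card_D : (KD c' e V ∪ KD c e V).card = (KD c' e V).card + (KD c e V).card :=
  card_union_of_disjoint A.dis

lemma Dat.card_Fr :
    (fr c c' e Sd ∪ fr c' c e Sd').card = (fr c c' e Sd).card + (fr c' c e Sd').card := by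
  refine card_union_of_disjoint ?_
  rw [disjoint_left]
  intro x hx hx'
  exact disjoint_left.1 A.d12 (mem_fr.1 hx).1 (mem_fr.1 hx').1

/-- NO DEEP KILLER on the first side -/
theorem Dat.no_deep {E k : ℕ} (hE : ∑ x, e x ≤ E)
    (hk : k + (fr c c' e Sd).card + (fr c' c e Sd').card ≤
      (KD c' e V).card + (KD c e V).card)
    (hc : (E ≤ 8 ∧ 4 ≤ k) ∨ (E ≤ 6 ∧ 3 ≤ k) ∨ (E ≤ 7 ∧ 4 ≤ k) ∨
      (E ≤ 10 ∧ 5 ≤ k ∧ (KD c' e V).card + (KD c e V).card ≤ 6 ∧
        (6 ≤ (KD c' e V).card + (KD c e V).card → ∀ x ∈ V, 1 ≤ e x →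
          x ∈ KD c' e V ∨ x ∈ KD c e V)))
    {z : P} (hz : z ∈ Sd) (tz : t z = 2) : ¬ kd c' e z := by
  classical
  intro hkz
  have m12 : ∀ x, x ∈ Sd → x ∈ Sd' → False := fun x h h' => disjoint_left.1 A.d12 h h'
  have hE10 : ∑ x ∈ Sd, e x ≤ 10 := by
    have h1 : ∑ x ∈ Sd, e x ≤ ∑ x, e x := sum_le_sum_of_subset (subset_univ _)
    have : E ≤ 10 := by omega
    omega
  obtain ⟨f, hf, tf⟩ := far_free A.S A.adm hE10 hz tz hkz
  have hen := A.energy hz tz hkz
  obtain ⟨ez, -⟩ := deep_data A.S A.adm hz tz hkz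
  have hD := A.card_D
  have hFr := A.card_Fr
  obtain ⟨F, hF⟩ : ∃ F : P → Finset P, F = fun g => if g ∈ Sd then kn c e g else kn c' e g :=
    ⟨_, rfl⟩
  have F1 : ∀ g ∈ Sd, F g = kn c e g := by
    intro g hg
    rw [hF]
    exact if_pos hg
  have F2 : ∀ g ∈ Sd', F g = kn c' e g := by
    intro g hg
    rw [hF]
    exact if_neg (fun h => m12 g h hg)
  have hcov := A.cov F F1 F2
  -- abbreviations
  obtain ⟨N, hN⟩ : ∃ N : Finset P, N = nE t Sd e ∪ nE t' Sd' e := ⟨_, rfl⟩
  obtain ⟨W, hW⟩ : ∃ W : Finset P, W = wE t Sd e ∪ wE t' Sd' e := ⟨_, rfl⟩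
  obtain ⟨D, hDd⟩ : ∃ D : Finset P, D = KD c' e V ∪ KD c e V := ⟨_, rfl⟩
  obtain ⟨Fr, hFrd⟩ : ∃ Fr : Finset P, Fr = fr c c' e Sd ∪ fr c' c e Sd' := ⟨_, rfl⟩
  rw [← hN, ← hW] at hen
  rw [← hN, ← hDd] at hcov
  rw [← hDd] at hD
  rw [← hFrd] at hFr
  rw [add_assoc, ← hFr, ← hD] at hk
  rw [← hD] at hc
  have zW : z ∈ W := by
    rw [hW]
    exact mem_union_left _ (mem_wE.2 ⟨hz, tz, ez⟩)
  have hW1 : 1 ≤ W.card := card_pos.2 ⟨z, zW⟩
  have memN : ∀ g ∈ N, (g ∈ Sd ∧ t g = 1 ∧ 1 ≤ e g) ∨ (g ∈ Sd' ∧ t' g = 1 ∧ 1 ≤ e g) := by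
    intro g hg
    rw [hN, mem_union, mem_nE, mem_nE] at hg
    exact hg
  have hN1 : ∀ g ∈ N, 1 ≤ e g := by
    intro g hg
    rcases memN g hg with h | h
    · exact h.2.2
    · exact h.2.2
  have hsN : N.card ≤ ∑ g ∈ N, e g := by
    rw [card_eq_sum_ones]
    exact sum_le_sum hN1
  have hFle : ∀ g ∈ N, (F g).card ≤ 2 := by
    intro g hg
    rcases memN g hg with h | h
    · rw [F1 g h.1]
      exact kn_le2 A.S g
    · rw [F2 g h.1]
      exact kn_le2 A.S' g
  have hDN := cov_le hFle hcov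
  have fFr : f ∈ Fr := by
    rw [hFrd]
    exact mem_union_left _ hf
  have hfN : f ∉ N := by
    intro h
    rcases memN f h with h | h
    · omega
    · exact m12 f (mem_fr.1 hf).1 h.1
  have hFr1 : 1 ≤ Fr.card := card_pos.2 ⟨f, fFr⟩
  -- the cases of an element next to the window
  have cases : ∀ g ∈ N, g ∈ Fr ∨
      (∃ w ∈ W, ((w ∈ wE t Sd e ∧ g ∈ c w ∧ g ∈ Sd) ∨ (w ∈ wE t' Sd' e ∧ g ∈ c' w ∧ g ∈ Sd'))) ∨
      (∃ x ∈ V, ((g ∈ Sd ∧ x ∈ c g) ∨ (g ∈ Sd' ∧ x ∈ c' g)) ∧ e g ≤ e x) := by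
    intro g hg
    rw [hN, mem_union] at hg
    rcases hg with hg | hg
    · have hgS := (mem_nE.1 hg).1
      rcases near_cases (c' := c') A.S hg with h | ⟨w, hw, h1, -⟩ | ⟨x, hx, h1, h2⟩
      · left
        rw [hFrd]
        exact mem_union_left _ h
      · right; left
        exact ⟨w, by rw [hW]; exact mem_union_left _ hw, Or.inl ⟨hw, h1, hgS⟩⟩
      · right; right
        exact ⟨x, hx, Or.inl ⟨hgS, h1⟩, h2⟩
    · have hgS := (mem_nE.1 hg).1
      rcases near_cases (c' := c) A.S' hg with h | ⟨w, hw, h1, -⟩ | ⟨x, hx, h1, h2⟩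
      · left
        rw [hFrd]
        exact mem_union_right _ h
      · right; left
        exact ⟨w, by rw [hW]; exact mem_union_right _ hw, Or.inr ⟨hw, h1, hgS⟩⟩
      · right; right
        exact ⟨x, hx, Or.inr ⟨hgS, h1⟩, h2⟩
  -- if only `z` has label two
  have onlyz : W.card = 1 → ∀ w ∈ W, w = z := by
    intro h w hw
    exact card_le_one.1 h.le w hw z zW
  have czN : (N.filter (fun g => g ∈ c z)).card ≤ 2 := by
    refine (card_le_card ?_).trans (A.S.c2 z)
    intro g hg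
    exact (mem_filter.1 hg).2
  have hsplit : (N.filter (fun g => g ∈ c z)).card + (N.filter (fun g => g ∉ c z)).card = N.card :=
    card_filter_add_card_filter_not _
  -- two elements under one element
  have shareN : 2 * N.card ≤ D.card → ∀ w g g', g ∈ N → g' ∈ N → g ≠ g' →
      ((w ∈ wE t Sd e ∧ g ∈ c w ∧ g ∈ Sd) ∨ (w ∈ wE t' Sd' e ∧ g ∈ c' w ∧ g ∈ Sd')) →
      ((w ∈ wE t Sd e ∧ g' ∈ c w ∧ g' ∈ Sd) ∨ (w ∈ wE t' Sd' e ∧ g' ∈ c' w ∧ g' ∈ Sd')) →
      False := by
    intro h w g g' hg hg' hne h1 h2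
    have c1 := cov_two hFle hcov h hg
    have c2 := cov_two hFle hcov h hg'
    rcases h1 with ⟨a1, a2, a3⟩ | ⟨a1, a2, a3⟩ <;> rcases h2 with ⟨b1, b2, b3⟩ | ⟨b1, b2, b3⟩
    · rw [F1 g a3] at c1
      rw [F1 g' b3] at c2
      obtain ⟨x, hx, hx'⟩ := share A.S A.hT a1 a2 b2 hne c1 c2
      exact cov_disj hFle hcov h hg hg' hne (by rw [F1 g a3]; exact hx)
        (by rw [F1 g' b3]; exact hx')
    · exact m12 w (mem_wE.1 a1).1 (mem_wE.1 b1).1
    · exact m12 w (mem_wE.1 b1).1 (mem_wE.1 a1).1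
    · rw [F2 g a3] at c1
      rw [F2 g' b3] at c2
      obtain ⟨x, hx, hx'⟩ := share A.S' A.hT' a1 a2 b2 hne c1 c2
      exact cov_disj hFle hcov h hg hg' hne (by rw [F2 g a3]; exact hx)
        (by rw [F2 g' b3]; exact hx')
  rcases hc with ⟨c1, c2⟩ | ⟨c1, c2⟩ | ⟨c1, c2⟩ | ⟨c1, c2, c3, c4⟩
  · -- energy eight
    have hN3 : N.card = 3 := by omega
    have hW' : W.card = 1 := by omega
    have hV0 : ∑ x ∈ V, e x = 0 := by omega
    have hfree : N.filter (fun g => g ∉ c z) ⊆ Fr.erase f := by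
      intro g hg
      rw [mem_filter] at hg
      rw [mem_erase]
      refine ⟨by rintro rfl; exact hfN hg.1, ?_⟩
      rcases cases g hg.1 with h | ⟨w, hw, h⟩ | ⟨x, hx, -, h2⟩
      · exact h
      · exfalso
        have h3 := onlyz hW' w hw
        rw [h3] at h
        rcases h with h | h
        · exact hg.2 h.2.1
        · exact m12 z hz (mem_wE.1 h.1).1
      · exfalso
        have h3 := hN1 g hg.1
        have h4 := (sum_eq_zero_iff.1 hV0) x hx
        omega
    have h1 := card_le_card hfree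
    have h2 := card_erase_add_one fFr
    have h3 : (N.filter (fun g => g ∈ c z)).card = 2 := by omega
    obtain ⟨g, g', hne, hgg⟩ := card_eq_two.1 h3
    have hg : g ∈ N.filter (fun g => g ∈ c z) := by rw [hgg]; simp
    have hg' : g' ∈ N.filter (fun g => g ∈ c z) := by rw [hgg]; simp
    rw [mem_filter] at hg hg'
    have inS : ∀ y ∈ c z, y ∈ Sd := by
      intro y hy
      obtain ⟨h1, h2⟩ := A.S.cin z hz y hy
      rcases h1 with h1 | h1
      · exact h1
      · have := A.S.tV y h1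
        omega
    have hzw : z ∈ wE t Sd e := mem_wE.2 ⟨hz, tz, ez⟩
    exact shareN (by omega) z g g' hg.1 hg'.1 hne (Or.inl ⟨hzw, hg.2, inS g hg.2⟩)
      (Or.inl ⟨hzw, hg'.2, inS g' hg'.2⟩)
  · omega
  · omega
  · -- energy ten
    have hD6 : D.card = 6 := by omega
    have hFr' : Fr.card = 1 := by omega
    have nofree : ∀ g ∈ N, g ∉ Fr := by
      intro g hg h
      have h1 := card_le_one.1 hFr'.le g h f fFr
      rw [h1] at hg
      exact hfN hg
    have hN3 : 3 ≤ N.card := by omega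
    rcases Nat.lt_or_ge N.card 4 with h4 | h4
    · have hN3' : N.card = 3 := by omega
      have h26 : 2 * N.card ≤ D.card := by omega
      have key : ∀ g ∈ N, ∃ w ∈ W,
          ((w ∈ wE t Sd e ∧ g ∈ c w ∧ g ∈ Sd) ∨ (w ∈ wE t' Sd' e ∧ g ∈ c' w ∧ g ∈ Sd')) := by
        intro g hg
        rcases cases g hg with h | h | ⟨x, hx, h1, h2⟩
        · exact absurd h (nofree g hg)
        · exact h
        · exfalso
          have h12 := cov_two hFle hcov h26 hg
          rcases h1 with ⟨h5, h6⟩ | ⟨h5, h6⟩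
          · rw [F1 g h5] at h12
            have e1 : kn c e g = c g := by
              refine eq_of_subset_of_card_le (filter_subset _ _) ?_
              rw [h12]
              exact A.S.c2 g
            rw [← e1, mem_kn] at h6
            omega
          · rw [F2 g h5] at h12
            have e1 : kn c' e g = c' g := by
              refine eq_of_subset_of_card_le (filter_subset _ _) ?_
              rw [h12]
              exact A.S'.c2 g
            rw [← e1, mem_kn] at h6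
            omega
      choose! om hom1 hom2 using key
      have hinj : N.card ≤ W.card := by
        refine card_le_card_of_injOn om (fun g hg => hom1 g hg) ?_
        intro g hg g' hg' heq
        by_contra hne
        have k1 := hom2 g hg
        have k2 := hom2 g' hg'
        rw [← heq] at k2
        exact shareN h26 (om g) g g' hg hg' hne k1 k2
      omega
    · have hW' : W.card = 1 := by omega
      have h11 : 1 ≤ (N.filter (fun g => g ∉ c z)).card := by omega
      obtain ⟨g, hg⟩ := card_pos.1 h11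
      rw [mem_filter] at hg
      rcases cases g hg.1 with h | ⟨w, hw, h⟩ | ⟨x, hx, -, h2⟩
      · exact nofree g hg.1 h
      · have h3 := onlyz hW' w hw
        rw [h3] at h
        rcases h with h | h
        · exact hg.2 h.2.1
        · exact m12 z hz (mem_wE.1 h.1).1
      · have h3 := hN1 g hg.1
        have h5 : x ∈ D := by
          rw [hDd, mem_union]
          exact c4 (by omega) x hx (by omega)
        obtain ⟨g', hg', hx'⟩ := mem_biUnion.1 (hcov h5)
        have h6 : e x < e g' := by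
          rcases memN g' hg' with h | h
          · rw [F1 g' h.1, mem_kn] at hx'
            exact hx'.2
          · rw [F2 g' h.1, mem_kn] at hx'
            exact hx'.2
        have h7 : ∑ g ∈ N, e g = ∑ g ∈ N.erase g', e g + e g' := by
          rw [sum_erase_add _ _ hg']
        have h8 : (N.erase g').card ≤ ∑ g ∈ N.erase g', e g := by
          rw [card_eq_sum_ones]
          exact sum_le_sum fun a ha => hN1 a (mem_of_mem_erase ha)
        have h9 := card_erase_add_one hg'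
        have h10 : e x ≤ ∑ x ∈ V, e x := single_le_sum (fun _ _ => Nat.zero_le _) hx
        omega

end main

end Pool.Agent.GaussPoset.Win.Dk
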